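import Mathlib
import Pool.Agent.N964.MX.Defs
import Pool.Agent.N967.Lim

set_option autoImplicit false

/-!
# From finite sums over the zeros to the ratio of `XX` (project MX, part B)
-/

namespace Pool.Agent.N284.MXB

open Complex Polynomial Filter Topology
open Pool.Agent.Y22.LM (xx_approx mult_le)
open Pool.Agent.Y23 (IsZ mu Lg)
open Pool.Agent.H24R2.JP (XX)
open Pool.Agent.N967 (norm_eval_sq norm_root prod_le_exp roots_sum XX_re)

/-- growth of `XX` on the real axis -/
lemma XX_grow : ∃ K : ℝ, 0 ≤ K ∧ ∀ x : ℝ, ‖XX x‖ ≤ Real.exp (K * (1 + x ^ 2) ^ (3 / 4 : ℝ)) := by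
  obtain ⟨h1, h2, h3, h4⟩ := Pool.Agent.H24R2.JP.b1
  obtain ⟨K, hK⟩ := Pool.Agent.H24R2.JP.grow Pool.Agent.H24R2.JP.b1
  refine ⟨|K|, abs_nonneg _, fun x => ?_⟩
  have h5 := hK ((x : ℂ) ^ 2)
  rw [h2] at h5
  refine h5.trans (Real.exp_le_exp.2 ?_)
  have h6 : ‖((x : ℂ) ^ 2)‖ = x ^ 2 := by
    rw [norm_pow, Complex.norm_real, Real.norm_eq_abs, sq_abs]
  rw [h6]
  exact mul_le_mul_of_nonneg_right (le_abs_self K) (by positivity)

lemma XX_zero_pos : 0 < ‖XX 0‖ := by
  obtain ⟨h1, h2, h3, h4⟩ := Pool.Agent.H24R2.JP.b1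
  have h7 := h4 0
  rw [iteratedDeriv_zero] at h7
  have h8 := h2 0
  rw [zero_pow two_ne_zero] at h8
  rw [← h8, h7]
  have := ((Pool.Agent.H24R2.JP.gamS Pool.Agent.H24R2.JP.mom).1 0).ne'
  exact norm_pos_iff.2 (by exact_mod_cast this)

lemma log_ge {u : ℝ} (h0 : 0 ≤ u) (h1 : u ≤ 1) : u / 2 ≤ Real.log (1 + u) := by
  have h2 := Real.one_sub_inv_le_log_of_pos (by linarith : (0 : ℝ) < 1 + u)
  have h3 : u / 2 ≤ 1 - (1 + u)⁻¹ := by
    have : 1 - (1 + u)⁻¹ = u / (1 + u) := by field_simp; ring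
    rw [this]
    exact div_le_div_of_nonneg_left h0 (by linarith) (by linarith)
  linarith

/-- the far roots of the approximating polynomials -/
lemma tail {p : ℂ[X]} (hp : ∀ r ∈ p.roots, r.re = 0) (h0 : p.eval 0 ≠ 0) {R : ℝ} (hR : 0 < R) :
    ((p.roots.map fun r => if R ≤ |r.im| then 1 / r.im ^ 2 else 0).sum) ≤
      2 / R ^ 2 * (2 * (Real.log ‖p.eval (R : ℂ)‖ - Real.log ‖p.eval 0‖)) := by
  have hne : ∀ r ∈ p.roots, r.im ≠ 0 := by
    intro r hr h
    have h1 := hp r hr
    have h2 : r = 0 := Complex.ext h1 h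
    rw [h2] at hr
    exact h0 (Polynomial.isRoot_of_mem_roots hr)
  -- products
  have hlc : p.leadingCoeff ≠ 0 := by
    intro h
    rw [Polynomial.leadingCoeff_eq_zero] at h
    rw [h] at h0
    simp at h0
  have e1 := norm_eval_sq p (R : ℂ)
  have e2 := norm_eval_sq p 0
  have e3 : (p.roots.map fun r => ‖(R : ℂ) - r‖ ^ 2).prod =
      (p.roots.map fun r => ‖(0 : ℂ) - r‖ ^ 2).prod * (p.roots.map fun r => 1 + R ^ 2 / r.im ^ 2).prod := by
    rw [← Multiset.prod_map_mul]
    refine congrArg _ (Multiset.map_congr rfl fun r hr => ?_)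
    have a1 := norm_root (hp r hr) R 0
    have a2 := norm_root (hp r hr) 0 0
    simp only [Complex.ofReal_zero, zero_mul, add_zero, zero_sub, zero_pow, ne_eq, OfNat.ofNat_ne_zero, not_false_eq_true, zero_add] at a1 a2
    rw [zero_sub, a1, a2]
    have := hne r hr
    field_simp
    ring
  have hpos2 : 0 < (p.roots.map fun r => 1 + R ^ 2 / r.im ^ 2).prod := by
    refine Multiset.prod_pos ?_
    intro x hx
    obtain ⟨r, hr, rfl⟩ := Multiset.mem_map.1 hx
    positivity
  have h0n : 0 < ‖p.eval 0‖ := norm_pos_iff.2 h0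
  have e4 : ‖p.eval (R : ℂ)‖ ^ 2 = ‖p.eval 0‖ ^ 2 * (p.roots.map fun r => 1 + R ^ 2 / r.im ^ 2).prod := by
    rw [e1, e2, e3]; ring
  have hRn : 0 < ‖p.eval (R : ℂ)‖ := by
    have : 0 < ‖p.eval (R : ℂ)‖ ^ 2 := by rw [e4]; positivity
    exact norm_pos_iff.2 (fun h => by rw [h] at this; simp at this)
  have e5 : 2 * (Real.log ‖p.eval (R : ℂ)‖ - Real.log ‖p.eval 0‖) =
      Real.log (p.roots.map fun r => 1 + R ^ 2 / r.im ^ 2).prod := by
    have := congrArg Real.log e4
    rw [Real.log_mul (by positivity) hpos2.ne', Real.log_pow, Real.log_pow] at this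
    push_cast at this
    linarith
  rw [e5]
  have hlogprod : ∀ s : Multiset ℂ, Real.log (s.map fun r => 1 + R ^ 2 / r.im ^ 2).prod =
      (s.map fun r => Real.log (1 + R ^ 2 / r.im ^ 2)).sum := by
    intro s
    induction s using Multiset.induction_on with
    | empty => simp
    | cons a s ih =>
      simp only [Multiset.map_cons, Multiset.prod_cons, Multiset.sum_cons]
      rw [Real.log_mul (by positivity) (by
        refine (Multiset.prod_pos ?_).ne'
        intro x hx
        obtain ⟨r, hr, rfl⟩ := Multiset.mem_map.1 hx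
        positivity), ih]
  rw [hlogprod, ← Multiset.sum_map_mul_left]
  refine Multiset.sum_map_le_sum_map _ _ fun r hr => ?_
  have hr0 := hne r hr
  have hr2 : 0 < r.im ^ 2 := by positivity
  split_ifs with h
  · have h5 : R ^ 2 ≤ r.im ^ 2 := by
      rw [← sq_abs r.im]; gcongr
    have h6 := log_ge (u := R ^ 2 / r.im ^ 2) (by positivity) (by rw [div_le_one hr2]; exact h5)
    calc 1 / r.im ^ 2 = 2 / R ^ 2 * (R ^ 2 / r.im ^ 2 / 2) := by field_simp
      _ ≤ _ := mul_le_mul_of_nonneg_left h6 (by positivity)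
  · have : 0 ≤ Real.log (1 + R ^ 2 / r.im ^ 2) := Real.log_nonneg (by
      have : 0 ≤ R ^ 2 / r.im ^ 2 := by positivity
      linarith)
    positivity

/-- the function of the sum -/
noncomputable def ff (δ y : ℝ) : ℝ := 1 / 2 * Real.log ((4 + y ^ 2) / (δ ^ 2 + y ^ 2))

lemma ff_nonneg {δ : ℝ} (h0 : 0 < δ) (h1 : δ ≤ 1) (y : ℝ) : 0 ≤ ff δ y := by
  unfold ff
  have : 0 ≤ Real.log ((4 + y ^ 2) / (δ ^ 2 + y ^ 2)) := by
    apply Real.log_nonneg
    rw [one_le_div (by positivity)]
    nlinarith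
  positivity

lemma ff_le {δ : ℝ} (h0 : 0 < δ) {y : ℝ} (hy : y ≠ 0) : ff δ y ≤ 2 / y ^ 2 := by
  unfold ff
  have hy2 : 0 < y ^ 2 := by positivity
  have h2 : Real.log ((4 + y ^ 2) / (δ ^ 2 + y ^ 2)) ≤ (4 + y ^ 2) / (δ ^ 2 + y ^ 2) - 1 :=
    Real.log_le_sub_one_of_pos (by positivity)
  have h3 : (4 + y ^ 2) / (δ ^ 2 + y ^ 2) - 1 ≤ 4 / y ^ 2 := by
    have : (4 + y ^ 2) / (δ ^ 2 + y ^ 2) - 1 = (4 - δ ^ 2) / (δ ^ 2 + y ^ 2) := by
      field_simp; ring
    rw [this]
    apply div_le_div₀ (by norm_num) (by nlinarith) hy2 (by nlinarith)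
  have h4 : 1 / 2 * (4 / y ^ 2) = 2 / y ^ 2 := by ring
  linarith

lemma tend0 (K L : ℝ) : Tendsto (fun R : ℝ => 8 * (2 / R ^ 2 * (2 * (K * (1 + R ^ 2) ^ (3 / 4 : ℝ) + L)))) atTop (𝓝 0) := by
  have h1 : Tendsto (fun R : ℝ => (1 + R ^ 2) ^ (3 / 4 : ℝ) / R ^ 2) atTop (𝓝 0) := by
    have h2 : Tendsto (fun R : ℝ => 2 * R ^ (-(1 / 2) : ℝ)) atTop (𝓝 0) := by
      have := (tendsto_rpow_neg_atTop (y := 1 / 2) (by norm_num)).const_mul 2
      simpa using this
    refine tendsto_of_tendsto_of_tendsto_of_le_of_le' tendsto_const_nhds h2 ?_ ?_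
    · filter_upwards [eventually_ge_atTop 1] with R hR
      positivity
    · filter_upwards [eventually_ge_atTop 1] with R hR
      have hR0 : 0 < R := by linarith
      rw [div_le_iff₀ (by positivity)]
      have e1 : (1 + R ^ 2) ^ (3 / 4 : ℝ) ≤ (2 * R ^ 2) ^ (3 / 4 : ℝ) := by
        apply Real.rpow_le_rpow (by positivity) (by nlinarith) (by norm_num)
      have e2 : (2 * R ^ 2) ^ (3 / 4 : ℝ) = 2 ^ (3 / 4 : ℝ) * R ^ (3 / 2 : ℝ) := by
        rw [Real.mul_rpow (by norm_num) (by positivity), ← Real.rpow_natCast, ← Real.rpow_mul hR0.le]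
        norm_num
      have e3 : (2 : ℝ) ^ (3 / 4 : ℝ) ≤ 2 := by
        calc (2 : ℝ) ^ (3 / 4 : ℝ) ≤ 2 ^ (1 : ℝ) := Real.rpow_le_rpow_of_exponent_le (by norm_num) (by norm_num)
          _ = 2 := Real.rpow_one 2
      have e4 : R ^ (-(1 / 2) : ℝ) * R ^ 2 = R ^ (3 / 2 : ℝ) := by
        rw [← Real.rpow_natCast, ← Real.rpow_add hR0]; norm_num
      calc (1 + R ^ 2) ^ (3 / 4 : ℝ) ≤ 2 ^ (3 / 4 : ℝ) * R ^ (3 / 2 : ℝ) := e1.trans e2.le
        _ ≤ 2 * R ^ (3 / 2 : ℝ) := mul_le_mul_of_nonneg_right e3 (by positivity)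
        _ = 2 * R ^ (-(1 / 2) : ℝ) * R ^ 2 := by rw [mul_assoc, e4]
  have h3 : Tendsto (fun R : ℝ => L / R ^ 2) atTop (𝓝 0) := by
    have : Tendsto (fun R : ℝ => R ^ 2) atTop atTop := tendsto_pow_atTop (by norm_num)
    exact this.const_div_atTop L
  have h4 := ((h1.const_mul K).add h3).const_mul 32
  simp only [mul_zero, add_zero] at h4
  refine h4.congr fun R => ?_
  ring

theorem lim : Pool.Agent.N964.MX.S_lim := by
  classical
  intro hRH δ t B hδ hδ1 hB
  obtain ⟨p, hp1, hp2, -⟩ := xx_approx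
  obtain ⟨K, hK0, hK⟩ := XX_grow
  have hX0 := XX_zero_pos
  have hpt : ∀ z : ℂ, Tendsto (fun N => ‖(p N).eval z‖) atTop (𝓝 ‖XX z‖) := fun z =>
    ((tendstoLocallyUniformlyOn_univ.mpr hp2).tendsto_at (Set.mem_univ z)).norm
  -- it is enough to prove it with `B + ε`
  have key : ∀ ε : ℝ, 0 < ε → ‖XX (2 + t * I)‖ ≤ Real.exp (B + ε) * ‖XX (δ + t * I)‖ := by
    intro ε hε
    set L : ℝ := 1 - Real.log ‖XX 0‖ with hL
    obtain ⟨R, hR1, hR2⟩ : ∃ R : ℝ, 2 * |t| + 1 ≤ R ∧
        8 * (2 / R ^ 2 * (2 * (K * (1 + R ^ 2) ^ (3 / 4 : ℝ) + L))) ≤ ε := by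
      have h1 := (tend0 K L).eventually (ge_mem_nhds hε)
      obtain ⟨R, h2, h3⟩ := (h1.and (eventually_ge_atTop (2 * |t| + 1))).exists
      exact ⟨R, h3, h2⟩
    have hR0 : 0 < R := by have := abs_nonneg t; linarith
    -- the near zeros
    have hfin : {r : ℂ | XX r = 0 ∧ |r.im| ≤ R}.Finite := by
      have h1 := Pool.Agent.Y23.isZ_finite R
      have h2 : (fun s : ℂ => s - 1 / 2) '' {s : ℂ | IsZ s ∧ |s.im| ≤ R} ⊇ {r : ℂ | XX r = 0 ∧ |r.im| ≤ R} := by
        rintro r ⟨hr1, hr2⟩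
        refine ⟨r + 1 / 2, ⟨(XX_re hRH hr1).1, ?_⟩, by ring⟩
        have h3 : (r + 1 / 2 : ℂ).im = r.im := by simp
        rw [h3]
        exact hr2
      exact (h1.image _).subset h2
    set A := hfin.toFinset with hA
    have hev : ∀ᶠ N in atTop, ∀ r ∈ A, (p N).rootMultiplicity r ≤ analyticOrderNatAt XX r := by
      rw [Filter.eventually_all_finset]
      intro r _
      exact mult_le Pool.Agent.Y23.XX_diff hp2 (Pool.Agent.Y23.XX_ne_top r)
    have hnear : ∑ r ∈ A, (analyticOrderNatAt XX r : ℝ) * (if |r.im| < R then ff δ (t - r.im) else 0) ≤ B := by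
      have h1 := hB (A.image fun r => r + 1 / 2) (by
        intro s hs
        obtain ⟨r, hr, rfl⟩ := Finset.mem_image.1 hs
        rw [hA, Set.Finite.mem_toFinset] at hr
        exact (XX_re hRH hr.1).1)
      rw [Finset.sum_image (by
        intro x _ y _ hxy
        exact add_right_cancel hxy)] at h1
      refine le_trans (Finset.sum_le_sum fun r hr => ?_) h1
      rw [hA, Set.Finite.mem_toFinset] at hr
      have hz := (XX_re hRH hr.1).1
      have h3 : (r + 1 / 2 : ℂ).im = r.im := by simp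
      have h4 : mu (r + 1 / 2) = analyticOrderNatAt XX r := by
        rw [Pool.Agent.Y23.mu_eq hz.2.1 hz.2.2]
        congr 1
        ring
      rw [h3, h4]
      refine mul_le_mul_of_nonneg_left ?_ (Nat.cast_nonneg _)
      have h5 := ff_nonneg hδ hδ1 (t - r.im)
      split_ifs
      · exact le_rfl
      · exact h5
    -- the growth at `R`
    have hgrow : ∀ᶠ N in atTop, (p N).eval 0 ≠ 0 ∧
        Real.log ‖(p N).eval (R : ℂ)‖ - Real.log ‖(p N).eval 0‖ ≤ K * (1 + R ^ 2) ^ (3 / 4 : ℝ) + L := by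
      have h1 := (hpt 0).eventually (lt_mem_nhds hX0)
      have h2 := ((hpt 0).log hX0.ne').eventually (lt_mem_nhds (by linarith : Real.log ‖XX 0‖ - 1 / 2 < Real.log ‖XX 0‖))
      have h3 : ‖XX (R : ℂ)‖ < Real.exp (K * (1 + R ^ 2) ^ (3 / 4 : ℝ) + 1 / 2) :=
        (hK R).trans_lt (Real.exp_lt_exp.2 (by linarith))
      have h4 := (hpt (R : ℂ)).eventually (gt_mem_nhds h3)
      filter_upwards [h1, h2, h4] with N g1 g2 g4
      refine ⟨fun h => by rw [h] at g1; simp at g1, ?_⟩
      have g5 : Real.log ‖(p N).eval (R : ℂ)‖ ≤ K * (1 + R ^ 2) ^ (3 / 4 : ℝ) + 1 / 2 := by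
        rcases eq_or_lt_of_le (norm_nonneg ((p N).eval (R : ℂ))) with h | h
        · rw [← h, Real.log_zero]
          positivity
        · rw [Real.log_le_iff_le_exp h]
          exact g4.le
      rw [hL]
      linarith
    have hmain : ∀ᶠ N in atTop, ‖(p N).eval (2 + t * I)‖ ^ 2 ≤
        Real.exp (2 * (B + ε)) * ‖(p N).eval (δ + t * I)‖ ^ 2 := by
      filter_upwards [hev, hgrow] with N hN1 hN2
      have hroots : ∀ r ∈ (p N).roots, XX r = 0 := fun r hr => hp1 N r (Polynomial.isRoot_of_mem_roots hr)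
      have hre : ∀ r ∈ (p N).roots, r.re = 0 := fun r hr => (XX_re hRH (hroots r hr)).2
      have hT := tail hre hN2.1 hR0
      have hsum : ((p N).roots.map fun r => ff δ (t - r.im)).sum ≤ B + ε := by
        have s1 : ((p N).roots.map fun r => ff δ (t - r.im)).sum ≤
            ((p N).roots.map fun r => (if |r.im| < R then ff δ (t - r.im) else 0) +
              8 * (if R ≤ |r.im| then 1 / r.im ^ 2 else 0)).sum := by
          refine Multiset.sum_map_le_sum_map _ _ fun r hr => ?_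
          by_cases h : |r.im| < R
          · rw [if_pos h, if_neg (not_le.2 h)]; simp
          · rw [if_neg h, if_pos (not_lt.1 h)]
            have h5 : R ≤ |r.im| := not_lt.1 h
            have h6 : |r.im| / 2 ≤ |t - r.im| := by
              have := abs_sub_abs_le_abs_sub r.im t
              rw [abs_sub_comm] at this
              linarith [abs_nonneg t]
            have h7 : 0 < |r.im| := by linarith
            have h8 : t - r.im ≠ 0 := by
              intro h9
              rw [h9, abs_zero] at h6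
              linarith
            refine (ff_le hδ h8).trans ?_
            have h9 : (|r.im| / 2) ^ 2 ≤ |t - r.im| ^ 2 := by gcongr
            rw [sq_abs, div_pow, sq_abs] at h9
            have h10 : 0 < r.im ^ 2 := by rw [← sq_abs]; positivity
            rw [zero_add, mul_one_div, div_le_div_iff₀ (by positivity) h10]
            nlinarith
        rw [Multiset.sum_map_add] at s1
        have s2 : ((p N).roots.map fun r => if |r.im| < R then ff δ (t - r.im) else 0).sum ≤ B := by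
          refine (roots_sum (f := fun r => if |r.im| < R then ff δ (t - r.im) else 0) A
            (fun r => analyticOrderNatAt XX r) (fun r => ?_) (fun r hr h => ?_) hN1).trans hnear
          · have := ff_nonneg hδ hδ1 (t - r.im)
            split_ifs
            · exact this
            · exact le_rfl
          · rw [hA, Set.Finite.mem_toFinset]
            refine ⟨hroots r hr, ?_⟩
            by_contra h2
            exact h (if_neg (by linarith))
        have s3 : ((p N).roots.map fun r => 8 * (if R ≤ |r.im| then 1 / r.im ^ 2 else 0)).sum ≤ ε := by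
          rw [Multiset.sum_map_mul_left]
          refine le_trans ?_ hR2
          refine mul_le_mul_of_nonneg_left (hT.trans ?_) (by norm_num)
          have := hN2.2
          gcongr
        linarith
      have e1 : (2 + t * I : ℂ) = ((2 : ℝ) : ℂ) + t * I := by norm_num
      rw [e1]
      simp only [norm_eval_sq]
      have h := prod_le_exp (s := (p N).roots)
        (A := fun r => ‖(((2 : ℝ) : ℂ) + t * I : ℂ) - r‖ ^ 2)
        (B := fun r => ‖(δ + t * I : ℂ) - r‖ ^ 2)
        (ψ := fun r => 2 * ff δ (t - r.im))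
        (fun r _ => by positivity) (fun r _ => by positivity) (fun r hr => by
          have hr0 := hre r hr
          rw [norm_root hr0, norm_root hr0]
          set y := t - r.im
          have hD : 0 < δ ^ 2 + y ^ 2 := by positivity
          have : Real.exp (2 * ff δ y) = (4 + y ^ 2) / (δ ^ 2 + y ^ 2) := by
            unfold ff
            rw [← mul_assoc, show (2 : ℝ) * (1 / 2) = 1 by norm_num, one_mul, Real.exp_log (by positivity)]
          rw [this, mul_div_cancel₀ _ hD.ne']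
          norm_num)
      rw [Multiset.sum_map_mul_left] at h
      have h3 : Real.exp (2 * ((p N).roots.map fun r => ff δ (t - r.im)).sum) ≤ Real.exp (2 * (B + ε)) :=
        Real.exp_le_exp.2 (by linarith)
      have h4 : 0 ≤ ((p N).roots.map fun r => ‖(δ + t * I : ℂ) - r‖ ^ 2).prod := by
        refine Multiset.prod_nonneg ?_
        intro x hx
        obtain ⟨r, hr, rfl⟩ := Multiset.mem_map.1 hx
        positivity
      calc ‖(p N).leadingCoeff‖ ^ 2 * ((p N).roots.map fun r => ‖(((2 : ℝ) : ℂ) + t * I : ℂ) - r‖ ^ 2).prod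
          ≤ ‖(p N).leadingCoeff‖ ^ 2 * (((p N).roots.map fun r => ‖(δ + t * I : ℂ) - r‖ ^ 2).prod *
              Real.exp (2 * (B + ε))) :=
            mul_le_mul_of_nonneg_left (h.trans (mul_le_mul_of_nonneg_left h3 h4)) (by positivity)
        _ = _ := by ring
    have hlim := le_of_tendsto_of_tendsto ((hpt (2 + t * I)).pow 2)
      (((hpt (δ + t * I)).pow 2).const_mul (Real.exp (2 * (B + ε)))) hmain
    have h1 : ‖XX (2 + t * I)‖ ^ 2 ≤ (Real.exp (B + ε) * ‖XX (δ + t * I)‖) ^ 2 := by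
      rw [mul_pow, ← Real.exp_nat_mul]
      refine hlim.trans (le_of_eq ?_)
      push_cast
      ring
    exact le_of_sq_le_sq h1 (by positivity)
  -- let `ε → 0`
  have h1 : Tendsto (fun ε : ℝ => Real.exp (B + ε) * ‖XX (δ + t * I)‖) (𝓝[>] 0) (𝓝 (Real.exp (B + 0) * ‖XX (δ + t * I)‖)) := by
    refine Tendsto.mono_left ?_ nhdsWithin_le_nhds
    have : Continuous fun ε : ℝ => Real.exp (B + ε) * ‖XX (δ + t * I)‖ := by fun_prop
    exact this.tendsto 0
  rw [add_zero] at h1
  exact ge_of_tendsto h1 (by filter_upwards [self_mem_nhdsWithin] with ε hε using key ε hε)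

end Pool.Agent.N284.MXB
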