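import Pool.Agent.N652.OM.Stm2
import Pool.Agent.Helper278.MUFin

/-!
# Project OM (helper652), part DENS: the commutant of the group is the commutant of the factor
(worker: helper284)
-/

set_option autoImplicit false
set_option linter.unusedSectionVars false

namespace Pool.Agent.N284.OMD

open Pool.Agent.Helper278 Pool.Agent.Helper436.SN Pool.Agent.N652.OM
open Filter Topology
open scoped ComplexOrder Matrix.Norms.L2Operator InnerProductSpace

theorem s2_add_le {n : ℕ} (x y : Mat n) : s2 n (x + y) ≤ 2 * s2 n x + 2 * s2 n y := by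
  unfold s2
  have h1 : ∑ i, ∑ j, ‖(x + y) i j‖ ^ 2 ≤
      2 * ∑ i, ∑ j, ‖x i j‖ ^ 2 + 2 * ∑ i, ∑ j, ‖y i j‖ ^ 2 := by
    rw [Finset.mul_sum, Finset.mul_sum, ← Finset.sum_add_distrib]
    refine Finset.sum_le_sum fun i _ => ?_
    rw [Finset.mul_sum, Finset.mul_sum, ← Finset.sum_add_distrib]
    refine Finset.sum_le_sum fun j _ => ?_
    have h2 := norm_add_le (x i j) (y i j)
    have h3 := norm_nonneg ((x + y) i j)
    rw [Matrix.add_apply] at h3 ⊢
    nlinarith [sq_nonneg (‖x i j‖ - ‖y i j‖)]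
  have h2 := mul_le_mul_of_nonneg_left h1 (show 0 ≤ (n : ℝ)⁻¹ by positivity)
  linarith

theorem s2_neg {n : ℕ} (x : Mat n) : s2 n (-x) = s2 n x := by
  unfold s2
  simp only [Matrix.neg_apply, norm_neg]

theorem s2_mul_le' {n : ℕ} (x y : Mat n) : s2 n (x * y) ≤ ‖y‖ ^ 2 * s2 n x := by
  rw [← s2_star, star_mul]
  refine (s2_mul_le _ _).trans ?_
  rw [norm_star, s2_star]

section Q

variable {Q : Type} [Ring Q] [StarRing Q] [Algebra ℂ Q] {U : Ultrafilter ℕ}
  {π : (∀ n, Mat n) → Q} {φ : Q → ℂ}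

theorem nb_star {x : ∀ n, Mat n} (hx : NormBounded x) : NormBounded fun n => star (x n) := by
  obtain ⟨C, hC⟩ := hx
  exact ⟨|C|, fun n => (hC n).star'⟩

theorem nb_mul {x y : ∀ n, Mat n} (hx : NormBounded x) (hy : NormBounded y) :
    NormBounded fun n => x n * y n := by
  obtain ⟨C, hC⟩ := hx
  obtain ⟨D, hD⟩ := hy
  exact ⟨C * D, fun n => (hC n).mul (hD n)⟩

theorem nb_neg {x : ∀ n, Mat n} (hx : NormBounded x) : NormBounded fun n => (-1 : ℂ) • x n := by
  obtain ⟨C, hC⟩ := hx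
  refine ⟨C, fun n v => ?_⟩
  have h1 := hC n v
  show ∑ i, ‖((-1 : ℂ) • x n).mulVec v i‖ ^ 2 ≤ _
  rw [neg_one_smul, Matrix.neg_mulVec]
  simpa using h1

theorem nb_add {x y : ∀ n, Mat n} (hx : NormBounded x) (hy : NormBounded y) :
    NormBounded fun n => x n + y n := by
  obtain ⟨C, hC⟩ := hx
  obtain ⟨D, hD⟩ := hy
  exact ⟨2 * (|C| + |D|), fun n => (hC n).add (hD n)⟩

theorem lim_s2 (h : IsMatrixUltraproduct U π φ) {x : ∀ n, Mat n} (hx : NormBounded x) :
    Tendsto (fun n => s2 n (x n)) U (𝓝 (φ (star (π x) * π x)).re) := by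
  rw [← h.star x hx, ← h.mul _ _ (nb_star hx) hx]
  have h1 := (Complex.continuous_re.tendsto _).comp (h.trace _ (nb_mul (nb_star hx) hx))
  refine h1.congr fun n => ?_
  show (ntr n (star (x n) * x n)).re = s2 n (x n)
  rw [ntr_star_mul, Complex.ofReal_re]

theorem eq_zero (h : IsMatrixUltraproduct U π φ) {c : Q} (hc : (φ (star c * c)).re ≤ 0) :
    c = 0 := by
  obtain ⟨x, hx, rfl⟩ := h.surj c
  rw [h.ker x hx]
  have h1 := lim_s2 h hx
  have h2 : 0 ≤ (φ (star (π x) * π x)).re :=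
    ge_of_tendsto h1 (Eventually.of_forall fun n => s2_nonneg _)
  rw [le_antisymm hc h2] at h1
  have h3 := (Complex.continuous_ofReal.tendsto 0).comp h1
  rw [Complex.ofReal_zero] at h3
  refine h3.congr fun n => ?_
  show ((s2 n (x n) : ℝ) : ℂ) = _
  rw [ntr_star_mul]

theorem comm_bound (h : IsMatrixUltraproduct U π φ) (y : Q) :
    ∃ C : ℝ, 0 ≤ C ∧ ∀ w : Q, (φ (star (y * w - w * y) * (y * w - w * y))).re ≤
      C * (φ (star w * w)).re := by
  obtain ⟨b, hb, rfl⟩ := h.surj y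
  obtain ⟨C, hC⟩ := id hb
  refine ⟨4 * C ^ 2, by positivity, fun w => ?_⟩
  obtain ⟨x, hx, rfl⟩ := h.surj w
  have h1 := nb_mul hb hx
  have h2 := nb_mul hx hb
  have e1 : π b * π x - π x * π b = π (fun n => b n * x n + (-1 : ℂ) • (x n * b n)) := by
    rw [h.add _ _ h1 (nb_neg h2), h.smul _ _ h2, h.mul _ _ hb hx, h.mul _ _ hx hb,
      neg_one_smul, sub_eq_add_neg]
  rw [e1]
  refine le_of_tendsto_of_tendsto (lim_s2 h (nb_add h1 (nb_neg h2))) ((lim_s2 h hx).const_mul _)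
    (Eventually.of_forall fun n => ?_)
  have hn : ‖b n‖ ≤ |C| := (hC n).norm_le
  have hn2 : ‖b n‖ ^ 2 ≤ C ^ 2 := by
    rw [← sq_abs C]
    exact pow_le_pow_left₀ (norm_nonneg _) hn 2
  have a1 := s2_add_le (b n * x n) ((-1 : ℂ) • (x n * b n))
  have a2 := s2_mul_le (b n) (x n)
  have a3 := s2_mul_le' (x n) (b n)
  have a4 : s2 n ((-1 : ℂ) • (x n * b n)) = s2 n (x n * b n) := by
    rw [neg_one_smul, s2_neg]
  rw [a4] at a1
  have a5 := mul_le_mul_of_nonneg_right hn2 (s2_nonneg (x n))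
  show s2 n (b n * x n + (-1 : ℂ) • (x n * b n)) ≤ 4 * C ^ 2 * s2 n (x n)
  linarith

end Q

section G

variable (Γ : Type) [Group Γ]

/-- evaluation at the unit vector -/
noncomputable def ev : Elt (LG Γ) →ₗ[ℂ] EllTwo Γ where
  toFun a := (a : EllTwo Γ →L[ℂ] EllTwo Γ) (dirac Γ)
  map_add' _ _ := rfl
  map_smul' _ _ := rfl

theorem trL_sq (z : Elt (LG Γ)) : (trL Γ (star z * z)).re = ‖ev Γ z‖ ^ 2 := by
  have h1 : trL Γ (star z * z) = ⟪ev Γ z, ev Γ z⟫_ℂ := by
    show ⟪dirac Γ, (star (z : EllTwo Γ →L[ℂ] EllTwo Γ)) ((z : EllTwo Γ →L[ℂ] EllTwo Γ)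
      (dirac Γ))⟫_ℂ = _
    rw [ContinuousLinearMap.star_eq_adjoint, ContinuousLinearMap.adjoint_inner_right]
    rfl
  rw [h1, inner_self_eq_norm_sq_to_K]
  norm_cast

open Classical in
theorem ev_lg (g : Γ) : ev Γ (lg Γ g) = lp.single 2 g (1 : ℂ) := by
  ext k
  show (permOp (Equiv.mulLeft g⁻¹) (dirac Γ)) k = _
  rw [permOp_apply]
  unfold dirac
  rw [lp.single_apply, lp.single_apply, Equiv.coe_mulLeft]
  by_cases hk : k = g
  · subst hk
    simp
  · have : g⁻¹ * k ≠ 1 := fun h => hk (by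
      have := congrArg (fun t => g * t) h
      simpa using this)
    simp [Pi.single_apply, hk, this]

/-- the standard basis -/
noncomputable def hb : HilbertBasis Γ ℂ (EllTwo Γ) := ⟨LinearIsometryEquiv.refl ℂ _⟩

open Classical in
theorem hb_apply (g : Γ) : hb Γ g = lp.single 2 g (1 : ℂ) := by
  rw [← HilbertBasis.repr_symm_single]
  rfl

theorem exists_approx (x : Elt (LG Γ)) {ε : ℝ} (hε : 0 < ε) :
    ∃ a ∈ Submodule.span ℂ (Set.range (lg Γ)), ‖ev Γ (x - a)‖ < ε := by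
  classical
  have h1 : ev Γ x ∈ (Submodule.span ℂ (Set.range (hb Γ))).topologicalClosure := by
    rw [(hb Γ).dense_span]
    trivial
  have h2 := Metric.mem_closure_iff.1 h1 ε hε
  obtain ⟨v, hv, hd⟩ := h2
  have h3 : Submodule.span ℂ (Set.range (hb Γ)) =
      (Submodule.span ℂ (Set.range (lg Γ))).map (ev Γ) := by
    rw [Submodule.map_span, ← Set.range_comp]
    congr 1
    ext w
    constructor
    · rintro ⟨g, rfl⟩
      exact ⟨g, by rw [Function.comp_apply, ev_lg, hb_apply]⟩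
    · rintro ⟨g, rfl⟩
      exact ⟨g, by rw [Function.comp_apply, ev_lg, hb_apply]⟩
  have hv' : v ∈ Submodule.span ℂ (Set.range (hb Γ)) := hv
  rw [h3] at hv'
  obtain ⟨a, ha, rfl⟩ := hv'
  refine ⟨a, ha, ?_⟩
  rw [map_sub, ← dist_eq_norm]
  exact hd

end G

/-- **DENS** -/
theorem main : S_DENS := by
  intro U Γ _ Q _ _ _ _ π φ h θ hθ y hy x
  obtain ⟨C, hC0, hC⟩ := comm_bound h y
  have hcomm : ∀ a ∈ Submodule.span ℂ (Set.range (lg Γ)), y * θ a = θ a * y := by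
    intro a ha
    induction ha using Submodule.span_induction with
    | mem a ha =>
      obtain ⟨g, rfl⟩ := ha
      exact hy g
    | zero => rw [map_zero, mul_zero, zero_mul]
    | add a b _ _ h1 h2 => rw [map_add, mul_add, add_mul, h1, h2]
    | smul c a _ h1 => rw [map_smul, mul_smul_comm, smul_mul_assoc, h1]
  rw [← sub_eq_zero]
  apply eq_zero h
  refine le_of_forall_pos_le_add fun δ hδ => ?_
  rw [zero_add]
  obtain ⟨ε, hε, hεδ⟩ : ∃ ε : ℝ, 0 < ε ∧ C * ε ^ 2 ≤ δ := by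
    refine ⟨Real.sqrt (δ / (C + 1)), Real.sqrt_pos.2 (by positivity), ?_⟩
    rw [Real.sq_sqrt (by positivity)]
    rw [mul_div_assoc', div_le_iff₀ (by positivity)]
    nlinarith
  obtain ⟨a, ha, hxa⟩ := exists_approx Γ x hε
  have e1 : y * θ x - θ x * y = y * θ (x - a) - θ (x - a) * y := by
    rw [map_sub, mul_sub, sub_mul, hcomm a ha]
    abel
  rw [e1]
  refine (hC _).trans ?_
  have e2 : (φ (star (θ (x - a)) * θ (x - a))).re = ‖ev Γ (x - a)‖ ^ 2 := by
    rw [← map_star, ← map_mul, hθ, trL_sq]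
  rw [e2]
  refine le_trans (mul_le_mul_of_nonneg_left ?_ hC0) hεδ
  exact pow_le_pow_left₀ (norm_nonneg _) hxa.le 2

end Pool.Agent.N284.OMD
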