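import Pool.Agent.N795.SO.Stm
import Pool.Agent.Y998.ST.Stir

/-!
# Project SO: Poincaré inequality for the law of stirring, for finitely many functions
-/

set_option autoImplicit false

namespace Pool.Agent.N795.SO

namespace VARI

open Finset Equiv Filter Topology
open Pool.Agent.TH268.PD (law)
open Pool.Agent.N795.ST (mn)
open Pool.Agent.W805.LR (ringSum stirMass)
open Pool.Agent.Y998.ST (stirLaw totalRate TT E)

variable {V : Type} [Fintype V] [DecidableEq V]

lemma ring_eq (J : V → V → ℝ) (n : ℕ) : ∀ g : Perm V, ringSum J n g = (TT J ^ n) g 1 := by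
  induction n with
  | zero =>
    intro g
    rw [pow_zero, Matrix.one_apply]
    rfl
  | succ n ih =>
    intro g
    rw [pow_succ', Pool.Agent.Y998.ST.TT_mul]
    show ∑ x, ∑ y, J x y / 2 * ringSum J n (swap x y * g) = _
    simp only [ih]

lemma mass_eq (J : V → V → ℝ) (t : ℝ) (g : Perm V) : stirMass J t g = E (TT J) t g 1 := by
  unfold stirMass
  rw [← (Pool.Agent.Y998.ST.E_hasSum (TT J) t g 1).tsum_eq]
  refine tsum_congr fun n => ?_
  rw [ring_eq]

lemma law_eq (J : V → V → ℝ) (t : ℝ) (g : Perm V) : law J t g = stirLaw J t g := by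
  have hsum : ∑ g, Pool.Agent.W805.LR.stirMass J t g = Real.exp (t * totalRate J) :=
    Pool.Agent.W805.LR.sum_mass J t
  unfold law
  rw [hsum, mass_eq, Pool.Agent.Y998.ST.law_eq, Real.exp_neg, div_eq_inv_mul]

lemma pow_right (J : V → V → ℝ) (n : ℕ) :
    ∀ g h k : Perm V, (TT J ^ n) (g * k) (h * k) = (TT J ^ n) g h := by
  induction n with
  | zero =>
    intro g h k
    rw [pow_zero, Matrix.one_apply, Matrix.one_apply]
    simp only [mul_left_inj]
  | succ n ih =>
    intro g h k
    rw [pow_succ', Pool.Agent.Y998.ST.TT_mul, Pool.Agent.Y998.ST.TT_mul]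
    refine Finset.sum_congr rfl fun x _ => Finset.sum_congr rfl fun y _ => ?_
    rw [← mul_assoc, ih]

lemma TT_symm (J : V → V → ℝ) (g h : Perm V) : TT J g h = TT J h g := by
  unfold TT
  refine Finset.sum_congr rfl fun x _ => Finset.sum_congr rfl fun y _ => ?_
  congr 1
  have h1 : h = swap x y * g ↔ g = swap x y * h := by
    constructor
    · rintro rfl; rw [← mul_assoc, swap_mul_self, one_mul]
    · rintro rfl; rw [← mul_assoc, swap_mul_self, one_mul]
  simp only [h1]

lemma pow_symm (J : V → V → ℝ) (n : ℕ) (g h : Perm V) : (TT J ^ n) g h = (TT J ^ n) h g := by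
  have h1 : (TT J).transpose = TT J := by
    ext a b
    rw [Matrix.transpose_apply, TT_symm]
  have h2 : (TT J ^ n).transpose = TT J ^ n := by rw [Matrix.transpose_pow, h1]
  calc (TT J ^ n) g h = (TT J ^ n).transpose g h := by rw [h2]
    _ = _ := rfl

lemma law_inv (J : V → V → ℝ) (t : ℝ) (g : Perm V) : law J t g⁻¹ = law J t g := by
  rw [law_eq, law_eq]
  unfold stirLaw
  refine tsum_congr fun n => ?_
  rw [← Pool.Agent.Y998.ST.TT_words, ← Pool.Agent.Y998.ST.TT_words]
  congr 1
  have h1 := pow_right J n 1 g g⁻¹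
  rw [one_mul, mul_inv_cancel] at h1
  rw [h1, pow_symm]

lemma law_zero (J : V → V → ℝ) (g : Perm V) : law J 0 g = if g = 1 then 1 else 0 := by
  rw [law_eq]
  exact Pool.Agent.Y998.ST.law_zero J g

lemma law_dL (J : V → V → ℝ) (t : ℝ) (g : Perm V) :
    HasDerivAt (fun u => law J u g)
      (∑ x, ∑ y, J x y / 2 * (law J t (swap x y * g) - law J t g)) t := by
  simp only [law_eq]
  exact Pool.Agent.Y998.ST.law_deriv J t g

lemma law_dR (J : V → V → ℝ) (t : ℝ) (g : Perm V) :
    HasDerivAt (fun u => law J u g)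
      (∑ x, ∑ y, J x y / 2 * (law J t (g * swap x y) - law J t g)) t := by
  have h1 := law_dL J t g⁻¹
  simp only [law_inv] at h1
  refine h1.congr_deriv ?_
  refine Finset.sum_congr rfl fun x _ => Finset.sum_congr rfl fun y _ => ?_
  have h2 : swap x y * g⁻¹ = (g * swap x y)⁻¹ := by
    rw [mul_inv_rev, swap_inv]
  rw [h2, law_inv]

omit [DecidableEq V] in
lemma sum3 {ι : Type} [Fintype ι] (A : ι → V → V → ℝ) :
    ∑ g, ∑ x, ∑ y, A g x y = ∑ x, ∑ y, ∑ g, A g x y := by
  rw [Finset.sum_comm]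
  refine Finset.sum_congr rfl fun x _ => ?_
  rw [Finset.sum_comm]

lemma sum_dL (J : V → V → ℝ) (t : ℝ) (H : Perm V → ℝ) :
    ∑ g, (∑ x, ∑ y, J x y / 2 * (law J t (swap x y * g) - law J t g)) * H g =
      mn J t (fun g => ∑ x, ∑ y, J x y / 2 * (H (swap x y * g) - H g)) := by
  unfold mn
  simp only [Finset.sum_mul, Finset.mul_sum]
  rw [sum3, sum3]
  refine Finset.sum_congr rfl fun x _ => Finset.sum_congr rfl fun y _ => ?_
  have h2 : ∑ g, law J t (swap x y * g) * H g = ∑ g, law J t g * H (swap x y * g) := by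
    rw [← Equiv.sum_comp (Equiv.mulLeft (swap x y))]
    refine Finset.sum_congr rfl fun g _ => ?_
    rw [Equiv.coe_mulLeft, ← mul_assoc, swap_mul_self, one_mul]
  calc ∑ g, J x y / 2 * (law J t (swap x y * g) - law J t g) * H g
      = J x y / 2 * (∑ g, law J t (swap x y * g) * H g) - J x y / 2 * ∑ g, law J t g * H g := by
        rw [Finset.mul_sum, Finset.mul_sum, ← Finset.sum_sub_distrib]
        refine Finset.sum_congr rfl fun g _ => ?_
        ring
    _ = _ := by
        rw [h2, Finset.mul_sum, Finset.mul_sum, ← Finset.sum_sub_distrib]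
        refine Finset.sum_congr rfl fun g _ => ?_
        ring

lemma sum_dR (J : V → V → ℝ) (t : ℝ) (H : Perm V → ℝ) :
    ∑ g, (∑ x, ∑ y, J x y / 2 * (law J t (g * swap x y) - law J t g)) * H g =
      mn J t (fun g => ∑ x, ∑ y, J x y / 2 * (H (g * swap x y) - H g)) := by
  unfold mn
  simp only [Finset.sum_mul, Finset.mul_sum]
  rw [sum3, sum3]
  refine Finset.sum_congr rfl fun x _ => Finset.sum_congr rfl fun y _ => ?_
  have h2 : ∑ g, law J t (g * swap x y) * H g = ∑ g, law J t g * H (g * swap x y) := by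
    rw [← Equiv.sum_comp (Equiv.mulRight (swap x y))]
    refine Finset.sum_congr rfl fun g _ => ?_
    rw [Equiv.coe_mulRight, mul_assoc, swap_mul_self, mul_one]
  calc ∑ g, J x y / 2 * (law J t (g * swap x y) - law J t g) * H g
      = J x y / 2 * (∑ g, law J t (g * swap x y) * H g) - J x y / 2 * ∑ g, law J t g * H g := by
        rw [Finset.mul_sum, Finset.mul_sum, ← Finset.sum_sub_distrib]
        refine Finset.sum_congr rfl fun g _ => ?_
        ring
    _ = _ := by
        rw [h2, Finset.mul_sum, Finset.mul_sum, ← Finset.sum_sub_distrib]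
        refine Finset.sum_congr rfl fun g _ => ?_
        ring

lemma mn_dL (J : V → V → ℝ) (t : ℝ) (H : Perm V → ℝ) :
    HasDerivAt (fun u => mn J u H)
      (mn J t (fun g => ∑ x, ∑ y, J x y / 2 * (H (swap x y * g) - H g))) t := by
  rw [← sum_dL]
  exact HasDerivAt.fun_sum fun g _ => (law_dL J t g).mul_const (H g)

/-- the inner mean -/
noncomputable def ff (J : V → V → ℝ) (t : ℝ) (F : Perm V → ℝ) (s : ℝ) (g : Perm V) : ℝ :=
  mn J (t - s) (fun k => F (g * k))

lemma ff_d (J : V → V → ℝ) (t : ℝ) (F : Perm V → ℝ) (s : ℝ) (g : Perm V) :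
    HasDerivAt (fun u => ff J t F u g)
      (-∑ x, ∑ y, J x y / 2 * (ff J t F s (g * swap x y) - ff J t F s g)) s := by
  unfold ff
  have h1 := (mn_dL J (t - s) (fun k => F (g * k))).comp_const_sub t s
  refine h1.congr_deriv ?_
  rw [neg_inj]
  unfold mn
  simp only [Finset.mul_sum]
  rw [sum3]
  refine Finset.sum_congr rfl fun x _ => Finset.sum_congr rfl fun y _ => ?_
  rw [← Finset.sum_sub_distrib, Finset.mul_sum]
  refine Finset.sum_congr rfl fun k _ => ?_
  rw [mul_assoc g]
  ring

lemma v_d (J : V → V → ℝ) (t : ℝ) (F : Perm V → ℝ) (s : ℝ) :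
    HasDerivAt (fun u => mn J u (fun g => ff J t F u g ^ 2))
      (mn J s (fun g => ∑ x, ∑ y, J x y / 2 *
        (ff J t F s (g * swap x y) - ff J t F s g) ^ 2)) s := by
  have h1 : HasDerivAt (fun u => mn J u (fun g => ff J t F u g ^ 2))
      (∑ g, ((∑ x, ∑ y, J x y / 2 * (law J s (g * swap x y) - law J s g)) * ff J t F s g ^ 2 +
        law J s g * (2 * ff J t F s g *
          (-∑ x, ∑ y, J x y / 2 * (ff J t F s (g * swap x y) - ff J t F s g))))) s := by
    unfold mn
    refine HasDerivAt.fun_sum fun g _ => ?_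
    have h2 := (ff_d J t F s g).pow 2
    have h3 := (law_dR J s g).mul h2
    refine h3.congr_deriv ?_
    simp only [Nat.cast_ofNat, Nat.add_one_sub_one, pow_one]
    rfl
  refine h1.congr_deriv ?_
  rw [Finset.sum_add_distrib, sum_dR J s (fun g => ff J t F s g ^ 2)]
  unfold mn
  rw [← Finset.sum_add_distrib]
  refine Finset.sum_congr rfl fun g _ => ?_
  rw [← mul_add]
  congr 1
  rw [mul_neg, ← sub_eq_add_neg, Finset.mul_sum, ← Finset.sum_sub_distrib]
  refine Finset.sum_congr rfl fun x _ => ?_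
  rw [Finset.mul_sum, ← Finset.sum_sub_distrib]
  refine Finset.sum_congr rfl fun y _ => ?_
  ring

/-- Jensen -/
lemma mn_sq {J : V → V → ℝ} (hJ : ∀ x y, 0 ≤ J x y) {t : ℝ} (ht : 0 ≤ t) (F : Perm V → ℝ) :
    mn J t F ^ 2 ≤ mn J t (fun g => F g ^ 2) := by
  obtain ⟨h0, h1⟩ := Pool.Agent.TH268.PD.law_prob J t ht hJ
  have h2 : 0 ≤ ∑ g, law J t g * (F g - mn J t F) ^ 2 :=
    Finset.sum_nonneg fun g _ => mul_nonneg (h0 g) (sq_nonneg _)
  have h3 : ∑ g, law J t g * (F g - mn J t F) ^ 2 =
      mn J t (fun g => F g ^ 2) - mn J t F ^ 2 := by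
    have e : ∀ g, law J t g * (F g - mn J t F) ^ 2 = law J t g * F g ^ 2 -
        2 * mn J t F * (law J t g * F g) + mn J t F ^ 2 * law J t g := fun g => by ring
    simp only [e]
    rw [Finset.sum_add_distrib, Finset.sum_sub_distrib, ← Finset.mul_sum, ← Finset.mul_sum, h1]
    have e2 : ∑ g, law J t g * F g = mn J t F := rfl
    rw [e2]
    have e3 : ∑ g, law J t g * F g ^ 2 = mn J t (fun g => F g ^ 2) := rfl
    rw [e3]
    ring
  linarith

lemma var_eq {J : V → V → ℝ} (hJ : ∀ x y, 0 ≤ J x y) {t : ℝ} (ht : 0 ≤ t) (F : Perm V → ℝ) :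
    mn J t (fun g => (F g - mn J t F) ^ 2) = mn J t (fun g => F g ^ 2) - mn J t F ^ 2 := by
  obtain ⟨h0, h1⟩ := Pool.Agent.TH268.PD.law_prob J t ht hJ
  have e : ∀ g, law J t g * (F g - mn J t F) ^ 2 = law J t g * F g ^ 2 -
      2 * mn J t F * (law J t g * F g) + mn J t F ^ 2 * law J t g := fun g => by ring
  have e0 : mn J t (fun g => (F g - mn J t F) ^ 2) =
      ∑ g, law J t g * (F g - mn J t F) ^ 2 := rfl
  rw [e0]
  simp only [e]
  rw [Finset.sum_add_distrib, Finset.sum_sub_distrib, ← Finset.mul_sum, ← Finset.mul_sum, h1]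
  have e2 : ∑ g, law J t g * F g = mn J t F := rfl
  rw [e2]
  have e3 : ∑ g, law J t g * F g ^ 2 = mn J t (fun g => F g ^ 2) := rfl
  rw [e3]
  ring

lemma mn_zero (J : V → V → ℝ) (F : Perm V → ℝ) : mn J 0 F = F 1 := by
  unfold mn
  simp only [law_zero, ite_mul, one_mul, zero_mul]
  rw [Finset.sum_ite_eq']
  simp

end VARI

open Finset Equiv Filter Topology VARI
open Pool.Agent.TH268.PD (law)
open Pool.Agent.N795.ST (mn mn_mono mn_const)

theorem vari : Vari := by
  intro V ι _ _ _ J t G F hJ ht hF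
  set v : ℝ → ℝ := fun s => ∑ i, mn J s (fun g => ff J t (F i) s g ^ 2) with hv
  set v' : ℝ → ℝ := fun s => ∑ i, mn J s (fun g => ∑ x, ∑ y, J x y / 2 *
        (ff J t (F i) s (g * swap x y) - ff J t (F i) s g) ^ 2) with hv'
  have hd : ∀ s, HasDerivAt v (v' s) s := fun s => HasDerivAt.fun_sum fun i _ => v_d J t (F i) s
  have hb : ∀ s, 0 ≤ s → s ≤ t → v' s ≤ G := by
    intro s hs0 hst
    have hts : 0 ≤ t - s := by linarith
    have e1 : v' s = mn J s (fun g => ∑ i, ∑ x, ∑ y, J x y / 2 *
        (ff J t (F i) s (g * swap x y) - ff J t (F i) s g) ^ 2) := by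
      rw [hv']
      unfold mn
      simp only
      rw [Finset.sum_comm]
      refine Finset.sum_congr rfl fun g _ => ?_
      rw [Finset.mul_sum]
    rw [e1]
    refine le_trans (mn_mono hJ hs0 (G := fun _ => G) fun g => ?_) (le_of_eq (mn_const hJ hs0 G))
    have e2 : ∀ i x y, (ff J t (F i) s (g * swap x y) - ff J t (F i) s g) ^ 2 ≤
        mn J (t - s) (fun k => (F i (g * swap x y * k) - F i (g * k)) ^ 2) := by
      intro i x y
      have h1 := mn_sq hJ hts (fun k => F i (g * swap x y * k) - F i (g * k))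
      have h2 : mn J (t - s) (fun k => F i (g * swap x y * k) - F i (g * k)) =
          ff J t (F i) s (g * swap x y) - ff J t (F i) s g := by
        unfold ff
        exact Pool.Agent.N795.ST.mn_sub J (t - s) _ _
      rw [h2] at h1
      exact h1
    calc ∑ i, ∑ x, ∑ y, J x y / 2 * (ff J t (F i) s (g * swap x y) - ff J t (F i) s g) ^ 2
        ≤ ∑ i, ∑ x, ∑ y, J x y / 2 *
          mn J (t - s) (fun k => (F i (g * swap x y * k) - F i (g * k)) ^ 2) := by
          refine Finset.sum_le_sum fun i _ => Finset.sum_le_sum fun x _ =>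
            Finset.sum_le_sum fun y _ => ?_
          exact mul_le_mul_of_nonneg_left (e2 i x y) (div_nonneg (hJ x y) two_pos.le)
      _ = mn J (t - s) (fun k => ∑ i, ∑ x, ∑ y, J x y / 2 *
          (F i (g * swap x y * k) - F i (g * k)) ^ 2) := by
          unfold mn
          simp only [Finset.mul_sum]
          symm
          rw [Finset.sum_comm]
          refine Finset.sum_congr rfl fun i _ => ?_
          rw [sum3]
          refine Finset.sum_congr rfl fun x _ => Finset.sum_congr rfl fun y _ =>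
            Finset.sum_congr rfl fun k _ => ?_
          ring
      _ ≤ mn J (t - s) (fun _ => G) := mn_mono hJ hts fun k => hF g k
      _ = G := mn_const hJ hts G
  have hmono : AntitoneOn (fun s => v s - G * s) (Set.Icc 0 t) := by
    have hd2 : ∀ s, HasDerivAt (fun s => v s - G * s) (v' s - G) s := by
      intro s
      have h1 := (hd s).sub ((hasDerivAt_id' s).const_mul G)
      rw [mul_one] at h1
      exact h1
    refine antitoneOn_of_deriv_nonpos (convex_Icc 0 t)
      (fun s _ => (hd2 s).continuousAt.continuousWithinAt)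
      (fun s _ => (hd2 s).differentiableAt.differentiableWithinAt) fun s hs => ?_
    rw [interior_Icc] at hs
    rw [(hd2 s).deriv]
    linarith [hb s hs.1.le hs.2.le]
  have h1 := hmono (Set.left_mem_Icc.2 ht) (Set.right_mem_Icc.2 ht) ht
  simp only [mul_zero, sub_zero] at h1
  have h2 : v t = ∑ i, mn J t (fun g => F i g ^ 2) := by
    rw [hv]
    simp only
    refine Finset.sum_congr rfl fun i _ => ?_
    congr 1
    funext g
    unfold ff
    rw [sub_self, mn_zero, mul_one]
  have h3 : v 0 = ∑ i, mn J t (F i) ^ 2 := by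
    rw [hv]
    simp only
    refine Finset.sum_congr rfl fun i _ => ?_
    rw [mn_zero]
    unfold ff
    simp only [sub_zero, one_mul]
  calc ∑ i, mn J t (fun g => (F i g - mn J t (F i)) ^ 2)
      = ∑ i, (mn J t (fun g => F i g ^ 2) - mn J t (F i) ^ 2) :=
        Finset.sum_congr rfl fun i _ => var_eq hJ ht (F i)
    _ = v t - v 0 := by rw [h2, h3, Finset.sum_sub_distrib]
    _ ≤ t * G := by linarith

end Pool.Agent.N795.SO
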