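import Pool.Agent.N502.TM.Stm

/-! # Project TM, part DEN: densities in `L²` -/

set_option autoImplicit false

namespace Pool.Agent.N284.TM_DEN

open MeasureTheory Set Filter Topology
open scoped ENNReal Real InnerProductSpace
open Pool.Agent.N502.TM

variable {d : ℕ}

lemma integrable_of_mem {E : Set (V d)} {f : L2 d} (hf : f ∈ Dens E) :
    Integrable (fun x => f x) := by
  by_contra h
  have h1 := integral_undef h
  have h2 := hf.2.2
  rw [h1] at h2
  exact zero_ne_one h2

lemma convex_dens (E : Set (V d)) : Convex ℝ (Dens E) := by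
  intro f hf g hg a b ha hb hab
  have h1 : ∀ᵐ x, (a • f + b • g : L2 d) x = a * f x + b * g x := by
    filter_upwards [Lp.coeFn_add (a • f) (b • g), Lp.coeFn_smul a f, Lp.coeFn_smul b g] with x e1
      e2 e3
    rw [e1, Pi.add_apply, e2, e3]
    rfl
  refine ⟨?_, ?_, ?_⟩
  · filter_upwards [h1, hf.1, hg.1] with x e1 e2 e3
    rw [e1]
    positivity
  · filter_upwards [h1, hf.2.1, hg.2.1] with x e1 e2 e3 hx
    rw [e1, e2 hx, e3 hx, mul_zero, mul_zero, add_zero]
  · rw [integral_congr_ae h1, integral_add ((integrable_of_mem hf).const_mul a)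
      ((integrable_of_mem hg).const_mul b), integral_const_mul, integral_const_mul, hf.2.2,
      hg.2.2, mul_one, mul_one, hab]

lemma integral_eq_inner {E : Set (V d)} (hE : MeasurableSet E) (hμ : volume E ≠ ∞) {f : L2 d}
    (hf : ∀ᵐ x, x ∉ E → f x = 0) :
    ∫ x, f x = ⟪indicatorConstLp 2 hE hμ (1 : ℝ), f⟫_ℝ := by
  rw [L2.inner_indicatorConstLp_one, setIntegral_eq_integral_of_ae_compl_eq_zero hf]

lemma closed_dens {E : Set (V d)} (hE : MeasurableSet E) (hμ : volume E ≠ ∞) :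
    IsClosed (Dens E) := by
  have e : Dens E = {f : L2 d | 0 ≤ f} ∩
      ({f : L2 d | LpToLpRestrictCLM (V d) ℝ ℝ volume 2 Eᶜ f = 0} ∩
        {f : L2 d | ⟪indicatorConstLp 2 hE hμ (1 : ℝ), f⟫_ℝ = 1}) := by
    ext f
    have h1 : (∀ᵐ x, x ∉ E → f x = 0) ↔
        LpToLpRestrictCLM (V d) ℝ ℝ volume 2 Eᶜ f = 0 := by
      rw [Lp.eq_zero_iff_ae_eq_zero]
      have h2 := LpToLpRestrictCLM_coeFn (p := 2) (μ := (volume : Measure (V d))) ℝ Eᶜ f
      constructor
      · intro h3
        have h4 : ∀ᵐ x ∂(volume.restrict Eᶜ), f x = 0 :=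
          (ae_restrict_iff' hE.compl).2 h3
        filter_upwards [h2, h4] with x e1 e2
        rw [e1, e2]
        rfl
      · intro h3
        have h4 : ∀ᵐ x ∂(volume.restrict Eᶜ), f x = 0 := by
          filter_upwards [h2, h3] with x e1 e2
          rw [← e1, e2]
          rfl
        exact (ae_restrict_iff' hE.compl).1 h4
    constructor
    · rintro ⟨g1, g2, g3⟩
      refine ⟨(Lp.coeFn_nonneg f).1 g1, h1.1 g2, ?_⟩
      show ⟪indicatorConstLp 2 hE hμ (1 : ℝ), f⟫_ℝ = 1
      rw [← integral_eq_inner hE hμ g2, g3]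
    · rintro ⟨g1, g2, g3⟩
      refine ⟨(Lp.coeFn_nonneg f).2 g1, h1.2 g2, ?_⟩
      rw [integral_eq_inner hE hμ (h1.2 g2)]
      exact g3
  rw [e]
  refine isClosed_Ici.inter (IsClosed.inter ?_ ?_)
  · exact isClosed_eq (ContinuousLinearMap.continuous _) continuous_const
  · exact isClosed_eq (continuous_const.inner continuous_id) continuous_const

lemma ind_mem {E A : Set (V d)} (hA : MeasurableSet A) (hμ : volume A ≠ ∞)
    (h0 : volume A ≠ 0) (hAE : A ⊆ E) :
    indicatorConstLp 2 hA hμ ((volume.real A)⁻¹ : ℝ) ∈ (Dens E : Set (L2 d)) := by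
  have hpos : 0 < volume.real A := ENNReal.toReal_pos h0 hμ
  have h1 : ∀ᵐ x, (indicatorConstLp 2 hA hμ ((volume.real A)⁻¹ : ℝ) : L2 d) x =
      A.indicator (fun _ => (volume.real A)⁻¹) x := indicatorConstLp_coeFn
  refine ⟨?_, ?_, ?_⟩
  · filter_upwards [h1] with x hx
    rw [hx]
    exact indicator_nonneg (fun _ _ => (inv_pos.2 hpos).le) x
  · filter_upwards [h1] with x hx hxE
    rw [hx, indicator_of_notMem fun h => hxE (hAE h)]
  · rw [integral_indicatorConstLp, smul_eq_mul, mul_inv_cancel₀ hpos.ne']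

lemma ae_le_dens {E : Set (V d)} (hE : MeasurableSet E) (hμ : volume E ≠ ∞) (u : L2 d) (I : ℝ)
    (h : ∀ g ∈ Dens E, I ≤ ⟪g, u⟫_ℝ) : ∀ᵐ x, x ∈ E → I ≤ u x := by
  rw [← ae_restrict_iff' hE]
  have : IsFiniteMeasure ((volume : Measure (V d)).restrict E) :=
    ⟨by rw [Measure.restrict_apply_univ]; exact lt_top_iff_ne_top.2 hμ⟩
  have hu : Integrable (fun x => u x) ((volume : Measure (V d)).restrict E) :=
    ((Lp.memLp u).restrict E).integrable one_le_two
  refine ae_le_of_forall_setIntegral_le (integrable_const I) hu fun s hs _ => ?_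
  rw [Measure.restrict_restrict hs]
  have hA : MeasurableSet (s ∩ E) := hs.inter hE
  have hμA : volume (s ∩ E) ≠ ∞ := ne_top_of_le_ne_top hμ (measure_mono inter_subset_right)
  by_cases h0 : volume (s ∩ E) = 0
  · rw [Measure.restrict_eq_zero.2 h0, integral_zero_measure, integral_zero_measure]
  · have hpos : 0 < volume.real (s ∩ E) := ENNReal.toReal_pos h0 hμA
    have h1 := h _ (ind_mem hA hμA h0 inter_subset_right)
    rw [L2.inner_indicatorConstLp_eq_inner_setIntegral] at h1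
    rw [setIntegral_const, smul_eq_mul]
    have h2 : ⟪((volume.real (s ∩ E))⁻¹ : ℝ), ∫ x in s ∩ E, u x⟫_ℝ =
        (volume.real (s ∩ E))⁻¹ * ∫ x in s ∩ E, u x := by
      rw [real_inner_eq_re_inner, RCLike.inner_apply]
      simp [mul_comm]
    rw [h2, ← div_eq_inv_mul, le_div_iff₀ hpos] at h1
    linarith

lemma le_inner_dens {E : Set (V d)} (w : L2 d) (I : ℝ) (h : ∀ᵐ x, x ∈ E → I ≤ w x) (g : L2 d)
    (hg : g ∈ Dens E) : I ≤ ⟪g, w⟫_ℝ := by
  rw [L2.inner_def]
  have h1 : ∀ᵐ x, I * g x ≤ ⟪g x, w x⟫_ℝ := by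
    filter_upwards [h, hg.1, hg.2.1] with x e1 e2 e3
    have h2 : ⟪g x, w x⟫_ℝ = w x * g x := by
      rw [real_inner_eq_re_inner, RCLike.inner_apply]
      simp
    rw [h2]
    by_cases hx : x ∈ E
    · exact mul_le_mul_of_nonneg_right (e1 hx) e2
    · rw [e3 hx, mul_zero, mul_zero]
  calc I = ∫ x, I * g x := by rw [integral_const_mul, hg.2.2, mul_one]
    _ ≤ _ := integral_mono_ae ((integrable_of_mem hg).const_mul I) (L2.integrable_inner g w) h1

theorem main : Pool.Agent.N502.TM.S_DEN where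
  convex := fun _ E _ _ => convex_dens E
  closed := fun _ _ hE hμ => closed_dens hE hμ
  nonempty := fun _ _ hE hμ h0 => ⟨_, ind_mem hE hμ h0 Subset.rfl⟩
  ae_le := fun _ _ hE hμ u I h => ae_le_dens hE hμ u I h
  le_inner := fun _ _ _ _ w I h g hg => le_inner_dens w I h g hg

end Pool.Agent.N284.TM_DEN
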